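import Pool.Agent.FS.FinDim.Tame

universe u

namespace Pool.Agent.Results.MP_c55f2d_al.Finitistic

open CategoryTheory Pool.Agent.Lib.MP_c55f2d_al.Q

/-- The little finitistic dimension of every tame algebra is finite. -/
theorem result (k Λ : Type u) [Field k] [IsAlgClosed k] [Ring Λ] [Algebra k Λ]
    [FiniteDimensional k Λ] (hT : Tame k Λ) :
    ∃ N : ℕ, ∀ (M : Type u) [AddCommGroup M] [Module Λ M] [Module.Finite Λ M] (d : ℕ),
      HasProjectiveDimensionLE (ModuleCat.of Λ M) d →
        HasProjectiveDimensionLE (ModuleCat.of Λ M) N :=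
  Pool.Agent.FS.FinDim.main hT

end Pool.Agent.Results.MP_c55f2d_al.Finitistic
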