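import Pool.Agent.Lib.MP_c55f2d_al.QMain
import Pool.Agent.Lib.MP_c55f2d_al.H94Bridge

universe u

namespace Pool.Agent.Results.MP_c55f2d_al.Full

open Pool.Agent.Lib.MP_c55f2d_al

/-- The stable module category of a tame selfinjective algebra has Rouquier dimension at most
one. -/
theorem result (k Λ : Type u) [Field k] [IsAlgClosed k] [Ring Λ] [Algebra k Λ]
    [FiniteDimensional k Λ] [Module.Injective Λ Λ] (hT : Q.Tame k Λ) : H94.stableDim k Λ ≤ 1 :=
  have ⟨G, hG⟩ := Q.main_rad hT
  H94.stableDim_le_one k Λ G fun M _ _ _ => ⟨_, hG M⟩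

end Pool.Agent.Results.MP_c55f2d_al.Full
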