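import Pool.Agent.Lib.MP_c55f2d_al.QMain

universe u

namespace Pool.Agent.Results.MP_c55f2d_al.Radical

open Pool.Agent.Lib.MP_c55f2d_al.Q

/-- For every tame algebra there is one finitely generated module `G` such that the radical and
the top of every finitely generated module lie in `add G`. -/
theorem result (k Λ : Type u) [Field k] [IsAlgClosed k] [Ring Λ] [Algebra k Λ]
    [FiniteDimensional k Λ] (hT : Tame k Λ) :
    ∃ G : FGModuleCat.{u} Λ,
      ∀ (M : Type u) [AddCommGroup M] [Module Λ M] [Module.Finite Λ M],
        InAdd Λ G (Ring.jacobson Λ • (⊤ : Submodule Λ M) : Submodule Λ M) ∧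
          InAdd Λ G (M ⧸ (Ring.jacobson Λ • (⊤ : Submodule Λ M) : Submodule Λ M)) :=
  main_rad hT

end Pool.Agent.Results.MP_c55f2d_al.Radical
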