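import Pool.Agent.Lib.MP_c55f2d_al.RepDim

universe u

namespace Pool.Agent.Results.MP_c55f2d_al.RepDim

open CategoryTheory Pool.Agent.Lib.MP_c55f2d_al Pool.Agent.Lib.MP_c55f2d_al.Q

/-- Every tame algebra has a finitely generated generator `G` whose endomorphism ring has global
dimension at most three; `G` is also a cogenerator when the algebra is selfinjective. -/
theorem result (k Λ : Type u) [Field k] [IsAlgClosed k] [Ring Λ] [Algebra k Λ]
    [FiniteDimensional k Λ] (hT : Tame k Λ) :
    ∃ G : FGModuleCat.{u} Λ,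
      (∀ (P : Type u) [AddCommGroup P] [Module Λ P] [Module.Finite Λ P],
        Module.Projective Λ P → InAdd Λ G P) ∧
      (Module.Injective Λ Λ → ∀ (I : Type u) [AddCommGroup I] [Module Λ I] [Module.Finite Λ I],
        Module.Injective Λ I → InAdd Λ G I) ∧
      ∀ (N : Type u) [AddCommGroup N] [Module (Module.End Λ G)ᵐᵒᵖ N]
        [Module.Finite (Module.End Λ G)ᵐᵒᵖ N],
        HasProjectiveDimensionLE (ModuleCat.of (Module.End Λ G)ᵐᵒᵖ N) 3 := by
  obtain ⟨G, h1, h2⟩ := main_repdim hT
  refine ⟨G, fun P _ _ _ _ => ?_, fun _ I _ _ _ _ => ?_, h2⟩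
  · obtain ⟨n, π, hπ⟩ := Module.Finite.exists_fin' Λ P
    obtain ⟨s, hs⟩ := Module.projective_lifting_property π LinearMap.id hπ
    exact (h1.pi_self n).retract s π (LinearMap.congr_fun hs)
  · obtain ⟨n, f, hf⟩ := H94.exists_embedding (k := k) (Λ := Λ) I
    obtain ⟨r, hr⟩ := Module.Injective.out f hf LinearMap.id
    exact (h1.pi_self n).retract f r hr

end Pool.Agent.Results.MP_c55f2d_al.RepDim
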